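import Pool.Agent.H664.QK.Stm

set_option autoImplicit false

namespace Pool.Agent.H920.QK

open MvPolynomial Pool.Agent.H664.QK

theorem jac_apply (K : Subfield ℂ) {n : ℕ} (G : Fin n → MvPolynomial (Fin n ⊕ Fin n) K)
    (t : Fin n → ℂ) (j i : Fin n) : jac K G t j i = aeval (ex t) (pderiv (Sum.inl i) (G j)) +
    Complex.exp (t i) * aeval (ex t) (pderiv (Sum.inr i) (G j)) := rfl

theorem kpr_alg (K : Subfield ℂ) (hK : Kh K) (z : ℂ) (hz : IsAlgebraic K z) : z ∈ K := by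
  have hint : IsIntegral K z := hz.isIntegral
  have hsep : (minpoly K z).Separable := (minpoly.irreducible hint).separable
  have hd : Polynomial.aeval z (Polynomial.derivative (minpoly K z)) ≠ 0 :=
    hsep.aeval_derivative_ne_zero (minpoly.aeval K z)
  have hG : ∀ f : Polynomial K, aeval (ex (fun _ : Fin 1 => z))
      (Polynomial.aeval (X (Sum.inl 0) : MvPolynomial (Fin 1 ⊕ Fin 1) K) f) =
        Polynomial.aeval z f := by
    intro f
    rw [← Polynomial.aeval_algHom_apply, aeval_X]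
    rfl
  refine hK 1 (fun _ => Polynomial.aeval (X (Sum.inl 0)) (minpoly K z)) (fun _ => z) ?_ ?_ 0
  · intro j
    rw [hG, minpoly.aeval]
  · rw [Matrix.det_fin_one, jac_apply, Derivation.map_aeval, Derivation.map_aeval,
      pderiv_X_self, pderiv_X_of_ne (by simp), smul_eq_mul, mul_one, hG, smul_zero, map_zero,
      mul_zero, add_zero]
    exact hd

theorem kpr_log (K : Subfield ℂ) (hK : Kh K) (z : ℂ) (hz : Complex.exp z ∈ K) : z ∈ K := by
  obtain ⟨c, hc⟩ : ∃ c : K, (c : ℂ) = Complex.exp z := ⟨⟨_, hz⟩, rfl⟩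
  refine hK 1 (fun _ => X (Sum.inr 0) - C c) (fun _ => z) ?_ ?_ 0
  · intro j
    rw [map_sub, aeval_X, aeval_C]
    exact sub_eq_zero.2 hc.symm
  · have d1 : pderiv (Sum.inl 0) (X (Sum.inr 0) - C c : MvPolynomial (Fin 1 ⊕ Fin 1) K) = 0 := by
      rw [map_sub, pderiv_C, pderiv_X_of_ne (by simp), sub_zero]
    have d2 : pderiv (Sum.inr 0) (X (Sum.inr 0) - C c : MvPolynomial (Fin 1 ⊕ Fin 1) K) = 1 := by
      rw [map_sub, pderiv_C, pderiv_X_self, sub_zero]
    rw [Matrix.det_fin_one, jac_apply, d1, d2, map_zero, map_one, zero_add, mul_one]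
    exact Complex.exp_ne_zero _

theorem kpr_exp (K : Subfield ℂ) (hK : Kh K) (z : ℂ) (hz : z ∈ K) : Complex.exp z ∈ K := by
  obtain ⟨c, hc⟩ : ∃ c : K, (c : ℂ) = z := ⟨⟨_, hz⟩, rfl⟩
  have h := hK 2 (fun j => if j = 0 then X (Sum.inl 0) - C c else X (Sum.inl 1) - X (Sum.inr 0))
    (fun j => if j = 0 then z else Complex.exp z) ?_ ?_ 1
  · simpa using h
  · intro j
    by_cases hj : j = 0
    · simp only [if_pos hj]
      rw [map_sub, aeval_X, aeval_C]
      exact sub_eq_zero.2 hc.symm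
    · simp only [if_neg hj]
      rw [map_sub, aeval_X, aeval_X]
      exact sub_eq_zero.2 (by simp [ex])
  · rw [Matrix.det_fin_two]
    simp only [jac_apply]
    simp only [if_true, if_neg (one_ne_zero : (1 : Fin 2) ≠ 0)]
    have d1 : pderiv (Sum.inl 0) (X (Sum.inl 0) - C c : MvPolynomial (Fin 2 ⊕ Fin 2) K) = 1 := by
      rw [map_sub, pderiv_C, pderiv_X_self, sub_zero]
    have d2 : pderiv (Sum.inr 0) (X (Sum.inl 0) - C c : MvPolynomial (Fin 2 ⊕ Fin 2) K) = 0 := by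
      rw [map_sub, pderiv_C, pderiv_X_of_ne (by simp), sub_zero]
    have d3 : pderiv (Sum.inl 1) (X (Sum.inl 0) - C c : MvPolynomial (Fin 2 ⊕ Fin 2) K) = 0 := by
      rw [map_sub, pderiv_C, pderiv_X_of_ne (by simp), sub_zero]
    have d4 : pderiv (Sum.inr 1) (X (Sum.inl 0) - C c : MvPolynomial (Fin 2 ⊕ Fin 2) K) = 0 := by
      rw [map_sub, pderiv_C, pderiv_X_of_ne (by simp), sub_zero]
    have d5 : pderiv (Sum.inl 1) (X (Sum.inl 1) - X (Sum.inr 0) :
        MvPolynomial (Fin 2 ⊕ Fin 2) K) = 1 := by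
      rw [map_sub, pderiv_X_self, pderiv_X_of_ne (by simp), sub_zero]
    have d6 : pderiv (Sum.inr 1) (X (Sum.inl 1) - X (Sum.inr 0) :
        MvPolynomial (Fin 2 ⊕ Fin 2) K) = 0 := by
      rw [map_sub, pderiv_X_of_ne (by simp), pderiv_X_of_ne (by simp), sub_zero]
    rw [d1, d2, d3, d4, d5, d6]
    simp only [map_zero, map_one, mul_zero, add_zero, mul_one, zero_mul, sub_zero]
    exact one_ne_zero

theorem kpr : S_kpr :=
  fun K hK => ⟨kpr_alg K hK, kpr_exp K hK, kpr_log K hK⟩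

end Pool.Agent.H920.QK
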