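import Pool.Agent.H664.QK.Stm

set_option autoImplicit false

namespace Pool.Agent.H920.QK

open Pool.Agent.H664.QK

/-- matrices of a basis of `ℤ^n` -/
theorem basis_mat {n : ℕ} (b : Module.Basis (Fin n) ℤ (Fin n → ℤ)) :
    ∃ M M' : Matrix (Fin n) (Fin n) ℤ, M * M' = 1 ∧ M' * M = 1 ∧ (∀ i, M i = b i) ∧
      ∀ m j, Matrix.vecMul m M' j = b.repr m j := by
  have hv : ∀ (m : Fin n → ℤ) (j : Fin n),
      Matrix.vecMul m (Matrix.of fun i j => b.repr (Pi.single i 1) j) j = b.repr m j := by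
    intro m j
    have h1 : m = ∑ i, m i • (Pi.single i (1 : ℤ) : Fin n → ℤ) := by
      funext k
      simp [Finset.sum_apply, Pi.single_apply]
    conv_rhs => rw [h1]
    rw [map_sum, Finsupp.finsetSum_apply]
    simp only [Matrix.vecMul, dotProduct, Matrix.of_apply, map_smul, Finsupp.smul_apply,
      smul_eq_mul]
  have hm : (Matrix.of fun i => b i : Matrix (Fin n) (Fin n) ℤ) *
      (Matrix.of fun i j => b.repr (Pi.single i 1) j) = 1 := by
    ext i k
    have h2 := hv (b i) k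
    rw [Module.Basis.repr_self] at h2
    rw [Matrix.mul_apply]
    have h3 : (1 : Matrix (Fin n) (Fin n) ℤ) i k = (Finsupp.single i (1 : ℤ)) k := by
      rw [Matrix.one_apply, Finsupp.single_apply]
    rw [h3, ← h2]
    rfl
  refine ⟨Matrix.of fun i => b i, Matrix.of fun i j => b.repr (Pi.single i 1) j, hm,
    mul_eq_one_comm.1 hm, fun i => rfl, hv⟩

theorem lat1 (n : ℕ) (L : AddSubgroup (Fin n → ℤ))
    (hL : ∀ (k : ℤ) (m : Fin n → ℤ), k ≠ 0 → k • m ∈ L → m ∈ L) :
    ∃ (q : ℕ) (M M' : Matrix (Fin n) (Fin n) ℤ), M * M' = 1 ∧ M' * M = 1 ∧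
    ∀ m, m ∈ L ↔ ∀ j : Fin n, q ≤ j → Matrix.vecMul m M' j = 0 := by
  obtain ⟨q, o, hqo, bO, bN, a, ha⟩ := Submodule.exists_smith_normal_form_of_le
    (Pi.basisFun ℤ (Fin n)) (AddSubgroup.toIntSubmodule L) ⊤ le_top
  let b0 : Module.Basis (Fin o) ℤ (Fin n → ℤ) := bO.map (Submodule.topEquiv)
  obtain rfl : o = n := by
    have h1 := Module.finrank_eq_card_basis b0
    have h2 := Module.finrank_eq_card_basis (Pi.basisFun ℤ (Fin n))
    rw [h2] at h1
    simpa using h1.symm
  obtain ⟨M, M', h1, h2, h3, h4⟩ := basis_mat b0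
  refine ⟨q, M, M', h1, h2, fun m => ?_⟩
  simp only [h4]
  have hb0 : ∀ i, b0 i = (bO i : Fin o → ℤ) := fun i => rfl
  have ha' : ∀ i, a i ≠ 0 := by
    intro i hi
    have h5 := ha i
    rw [hi, zero_smul] at h5
    exact bN.ne_zero i (Subtype.ext h5)
  have hmem : ∀ i : Fin q, b0 (Fin.castLE hqo i) ∈ L := by
    intro i
    refine hL (a i) _ (ha' i) ?_
    rw [hb0, ← ha i]
    exact (bN i).2
  constructor
  · intro hm j hj
    obtain ⟨y, hy⟩ : ∃ y : AddSubgroup.toIntSubmodule L, (y : Fin o → ℤ) = m := ⟨⟨m, hm⟩, rfl⟩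
    have h5 : m = ∑ i, (bN.repr y i * a i) • b0 (Fin.castLE hqo i) := by
      have h6 := congrArg Subtype.val (bN.sum_repr y)
      rw [Submodule.coe_sum, hy] at h6
      rw [← h6]
      refine Finset.sum_congr rfl fun i _ => ?_
      rw [Submodule.coe_smul, ha i, mul_smul, hb0]
    rw [h5, map_sum, Finsupp.finsetSum_apply]
    refine Finset.sum_eq_zero fun i _ => ?_
    rw [map_smul, Finsupp.smul_apply, Module.Basis.repr_self, Finsupp.single_apply, if_neg, smul_zero]
    intro h7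
    rw [← h7] at hj
    have := i.2
    simp at hj
    omega
  · intro hj
    rw [← b0.sum_repr m]
    refine AddSubgroup.sum_mem _ fun i _ => ?_
    by_cases hi : (i : ℕ) < q
    · refine AddSubgroup.zsmul_mem _ ?_ _
      have h8 : i = Fin.castLE hqo ⟨i, hi⟩ := Fin.ext rfl
      rw [h8]
      exact hmem _
    · rw [hj i (by omega), zero_smul]
      exact L.zero_mem

theorem latN : S_latN := by
  refine ⟨lat1, ?_⟩
  intro n m hm hprim
  have hsat : ∀ (k : ℤ) (m' : Fin (n + 1) → ℤ), k ≠ 0 → k • m' ∈ AddSubgroup.zmultiples m →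
      m' ∈ AddSubgroup.zmultiples m := by
    intro k m' hk hkm
    obtain ⟨c, hc⟩ := AddSubgroup.mem_zmultiples_iff.1 hkm
    obtain ⟨g, k1, c1, hg, hcop, hk1, hc1⟩ : ∃ g k1 c1 : ℤ, g ≠ 0 ∧ IsCoprime k1 c1 ∧
        k = k1 * g ∧ c = c1 * g := by
      have h0 : 0 < Int.gcd k c := Int.gcd_pos_of_ne_zero_left _ hk
      obtain ⟨k1, c1, h1, h2, h3⟩ := Int.exists_gcd_one (m := k) (n := c) h0
      exact ⟨Int.gcd k c, k1, c1, by exact_mod_cast h0.ne', Int.isCoprime_iff_gcd_eq_one.2 h1, h2, h3⟩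
    have h1 : c1 • m = k1 • m' := by
      funext i
      have h2 := congrFun hc i
      simp only [Pi.smul_apply, smul_eq_mul] at h2 ⊢
      rw [hk1, hc1] at h2
      have h3 : g * (c1 * m i) = g * (k1 * m' i) := by linarith
      exact mul_left_cancel₀ hg h3
    obtain ⟨u, v, huv⟩ := hcop
    have h2 : m = k1 • (u • m + v • m') := by
      funext i
      have h3 := congrFun h1 i
      simp only [Pi.smul_apply, Pi.add_apply, smul_eq_mul] at h3 ⊢
      calc m i = (u * k1 + v * c1) * m i := by rw [huv, one_mul]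
        _ = u * k1 * m i + v * (c1 * m i) := by ring
        _ = _ := by rw [h3]; ring
    rcases hprim k1 _ h2 with h3 | h3
    · rw [h3, one_smul] at h1
      exact AddSubgroup.mem_zmultiples_iff.2 ⟨c1, h1⟩
    · rw [h3, neg_smul, one_smul] at h1
      exact AddSubgroup.mem_zmultiples_iff.2 ⟨-c1, by rw [neg_smul, h1, neg_neg]⟩
  obtain ⟨q, M, M', h1, h2, h3⟩ := lat1 (n + 1) _ hsat
  have hrow : ∀ j, Matrix.vecMul (M j) M' = Pi.single j 1 := by
    intro j
    have h4 : Matrix.vecMul (M j) M' = (M * M') j := by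
      funext k
      rfl
    rw [h4, h1]
    funext k
    rw [Matrix.one_apply, Pi.single_apply]
    simp only [eq_comm]
  have hin : ∀ j : Fin (n + 1), (j : ℕ) < q → ∃ c : ℤ, c • m = M j := by
    intro j hj
    refine AddSubgroup.mem_zmultiples_iff.1 ((h3 (M j)).2 fun k hk => ?_)
    rw [hrow, Pi.single_apply, if_neg]
    intro h5
    rw [h5] at hk
    omega
  have hback : Matrix.vecMul (Matrix.vecMul m M') M = m := by
    rw [Matrix.vecMul_vecMul, h2, Matrix.vecMul_one]
  have hv := (h3 m).1 (AddSubgroup.mem_zmultiples m)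
  -- the rows of index at least one are not used
  have hz : ∀ j : Fin (n + 1), j ≠ 0 → Matrix.vecMul m M' j = 0 := by
    intro j hj
    by_contra hne
    have hjq : (j : ℕ) < q := by
      by_contra h5
      exact hne (hv j (by omega))
    have hj0 : 0 < (j : ℕ) := Nat.pos_of_ne_zero fun h => hj (Fin.ext h)
    obtain ⟨c, hc⟩ := hin j hjq
    obtain ⟨d, hd⟩ := hin 0 (by simp; omega)
    have h5 : Matrix.vecMul (d • M j) M' = Matrix.vecMul (c • M 0) M' := by
      rw [← hc, ← hd, smul_smul, smul_smul, mul_comm]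
    rw [Matrix.smul_vecMul, Matrix.smul_vecMul, hrow, hrow] at h5
    have h6 := congrFun h5 0
    have h7 := congrFun h5 j
    simp only [Pi.smul_apply, Pi.single_apply, smul_eq_mul] at h6 h7
    rw [if_neg (Ne.symm hj)] at h6
    rw [if_neg hj] at h7
    simp only [if_true, mul_one, mul_zero] at h6 h7
    rw [← h6, zero_smul] at hc
    have h8 := hrow j
    rw [← hc, Matrix.zero_vecMul] at h8
    have h9 := congrFun h8 j
    simp at h9
  have hm0 : m = Matrix.vecMul m M' 0 • M 0 := by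
    conv_lhs => rw [← hback]
    generalize Matrix.vecMul m M' = v at hz
    funext k
    change ∑ i, v i * M i k = v 0 * M 0 k
    rw [Fin.sum_univ_succ]
    have h11 : ∑ i : Fin n, v i.succ * M i.succ k = 0 := Finset.sum_eq_zero fun i _ => by
      rw [hz i.succ (Fin.succ_ne_zero i), zero_mul]
    rw [h11, add_zero]
  rcases hprim _ _ hm0 with h4 | h4
  · refine ⟨M, M', h1, h2, ?_⟩
    rw [h4, one_smul] at hm0
    exact hm0.symm
  · refine ⟨-M, -M', by rw [neg_mul_neg, h1], by rw [neg_mul_neg, h2], ?_⟩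
    rw [h4, neg_smul, one_smul] at hm0
    rw [hm0]
    rfl

end Pool.Agent.H920.QK
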